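import Pool.Agent.Helper45.PQ.StN

/-! # Project PQ, module NU2: the case of nine elements -/

set_option autoImplicit false

open Module Classical
open scoped LinearAlgebra.Projectivization

namespace Pool.Agent.Helper41.PQ

open Pool.Agent.Helper45.PQ

universe u v

private theorem term_le (m : ℕ) (hm : 1 ≤ m) :
    (2 * (m : ℚ) - 1) / ((m : ℚ) + 1) ≤ (m : ℚ) / 2 := by
  have h0 : (0 : ℚ) ≤ m := Nat.cast_nonneg m
  rw [div_le_div_iff₀ (by linarith) (by norm_num)]
  have h2 : 0 ≤ ((m : ℚ) - 1) * ((m : ℚ) - 2) := by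
    rcases Nat.lt_or_ge m 2 with h | h
    · obtain rfl : m = 1 := by omega
      norm_num
    · have h3 : (2 : ℚ) ≤ m := by exact_mod_cast h
      exact mul_nonneg (by linarith) (by linarith)
  linarith

private theorem two_masses (a b : ℕ) (ha : 1 ≤ a) (hb : 1 ≤ b) (hab : a + b = 7)
    (h1 : a * (1 + b) + 1 ≤ 9) (h2 : b * (1 + a) + 1 ≤ 9) : False := by
  have ha6 : a ≤ 6 := by omega
  obtain rfl : b = 7 - a := by omega
  interval_cases a <;> omega

private theorem three_masses (a b c : ℕ) (ha : 1 ≤ a) (hb : 1 ≤ b) (hc : 1 ≤ c)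
    (hs : a + b + c = 7) (h1 : a * (1 + b) + 1 ≤ 9) (h2 : b * (1 + a) + 1 ≤ 9)
    (h3 : a * (1 + c) + 1 ≤ 9) (h4 : c * (1 + a) + 1 ≤ 9) (h5 : b * (1 + c) + 1 ≤ 9)
    (h6 : c * (1 + b) + 1 ≤ 9) : False := by
  have ha5 : a ≤ 5 := by omega
  have hb5 : b ≤ 5 := by omega
  obtain rfl : c = 7 - a - b := by omega
  interval_cases a <;> interval_cases b <;> omega

/-- NU2 (`q = 9`). -/
theorem hNU2 : StNU2.{v} := by
  intro α H m j hcard hm hsum hj hpair hlast
  have hs : ∑ R ∈ H, (2 * (m R : ℚ) - 1) / ((m R : ℚ) + 1) ≤ (j : ℚ) / 2 := by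
    calc ∑ R ∈ H, (2 * (m R : ℚ) - 1) / ((m R : ℚ) + 1) ≤ ∑ R ∈ H, (m R : ℚ) / 2 :=
          Finset.sum_le_sum fun R hR => term_le (m R) (hm R hR)
      _ = (j : ℚ) / 2 := by
          rw [← Finset.sum_div, ← hsum]
          push_cast
          rfl
  have hj0 : (0 : ℚ) ≤ j := Nat.cast_nonneg j
  have h1 : (2 * ((9 : ℚ) - j) + H.card) * (9 : ℚ) ^ 3 + 2 * (1 + j) ≤
      3 * ((44 : ℚ) ^ 2 + 1) + (1 + j) * ((j : ℚ) / 2) := by
    have := mul_le_mul_of_nonneg_left hs (by linarith : (0 : ℚ) ≤ 1 + j)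
    linarith
  obtain ⟨t, ht⟩ : ∃ t, t = H.card := ⟨_, rfl⟩
  rw [← ht] at h1 hcard
  have ht2 : (2 : ℚ) ≤ t := by exact_mod_cast hcard
  have hj7 : j = 7 ∧ t ≤ 3 := by
    have hj' : j ≤ 7 := by omega
    have key : (t : ℚ) < 4 ∨ j ≤ 6 := by
      by_contra hcon
      push Not at hcon
      obtain ⟨hc1, hc2⟩ := hcon
      obtain rfl : j = 7 := by omega
      push_cast at h1
      linarith
    interval_cases j
    all_goals first
      | (exfalso; push_cast at h1; linarith)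
      | skip
    refine ⟨rfl, ?_⟩
    rcases key with h | h
    · have : t < 4 := by exact_mod_cast h
      omega
    · omega
  obtain ⟨rfl, ht3⟩ := hj7
  have ht' : H.card = 2 ∨ H.card = 3 := by omega
  rcases ht' with h | h
  · obtain ⟨x, y, hxy, rfl⟩ := Finset.card_eq_two.1 h
    rw [Finset.sum_pair hxy] at hsum
    have hx : x ∈ ({x, y} : Finset α) := by simp
    have hy : y ∈ ({x, y} : Finset α) := by simp
    exact two_masses (m x) (m y) (hm x hx) (hm y hy) hsum (hpair x hx y hy hxy)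
      (hpair y hy x hx hxy.symm)
  · obtain ⟨x, y, z, hxy, hxz, hyz, rfl⟩ := Finset.card_eq_three.1 h
    have hx : x ∈ ({x, y, z} : Finset α) := by simp
    have hy : y ∈ ({x, y, z} : Finset α) := by simp
    have hz : z ∈ ({x, y, z} : Finset α) := by simp
    rw [Finset.sum_insert (by simp [hxy, hxz]), Finset.sum_pair hyz] at hsum
    exact three_masses (m x) (m y) (m z) (hm x hx) (hm y hy) (hm z hz) (by omega)
      (hpair x hx y hy hxy) (hpair y hy x hx hxy.symm) (hpair x hx z hz hxz)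
      (hpair z hz x hx hxz.symm) (hpair y hy z hz hyz) (hpair z hz y hy hyz.symm)

end Pool.Agent.Helper41.PQ
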